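import Pool.Agent.Lib.MP_1b4d2d_lc.Member
import Pool.Agent.Shared.PolyTimeConv

/-!
The translated Hausdorff distance problem is `∃∀∃ℝ`-complete.
-/

set_option autoImplicit false

namespace Pool.Agent.Results.MP_1b4d2d_lc.Complete

open Pool.Agent.Lib.MP_1b4d2d_lc Pool.Agent.Shared.PolyTime

/-- The translated Hausdorff distance problem lies in `∃∀∃ℝ`, and every problem of `∃∀∃ℝ` reduces
to it in polynomial time, by a map whose outputs are well formed and have `d = 1`. -/
theorem result : InEAER THD ∧ ∀ (α : Type) [N487b59b3 α] (P : α → Prop), InEAER P →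
    ∃ f : α → Inst, N68a2faeb.IsPolyTime f ∧
      ∀ a, (f a).WellFormed ∧ (f a).2.2.2 = 1 ∧ (P a ↔ THD (f a)) := by
  refine ⟨thd_mem, fun α _ P ⟨g, hg, h⟩ => ⟨fun a => red (g a),
    (pt_red.comp' (PT.ofIsPolyTime hg)).isPolyTime,
    fun a => ⟨red_wf _, rfl, (h a).trans (red_iff _)⟩⟩⟩

end Pool.Agent.Results.MP_1b4d2d_lc.Complete
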